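import Pool.Agent.Lib.MP_9b5ce2_nt.Step

/-!
# Multiplication by an odd prime p dividing w raises the exponent of p in w by one
-/

set_option autoImplicit false

namespace Quart

/-- if `g^4` divides `k w^2` with `k` squarefree then `g^2` divides `w` -/
theorem sq_dvd_of {k w g : ℤ} (hk : Squarefree k) (h : g ^ 4 ∣ k * w ^ 2) : g ^ 2 ∣ w := by
  by_cases hg : g = 0
  · subst hg
    have h1 : k * w ^ 2 = 0 := by simpa using h
    have h2 : k ≠ 0 := hk.ne_zero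
    have h3 : w = 0 := by
      rcases mul_eq_zero.1 h1 with h4 | h4
      · exact absurd h4 h2
      · exact pow_eq_zero_iff (two_ne_zero) |>.1 h4
    rw [h3]
    exact dvd_zero _
  -- divide by the gcd
  set d := Int.gcd (g ^ 2) w with hd
  have hd0 : (d : ℤ) ≠ 0 := by
    intro h0
    have h1 : d = 0 := by exact_mod_cast h0
    rw [hd, Int.gcd_eq_zero_iff] at h1
    exact hg (pow_eq_zero_iff (two_ne_zero) |>.1 h1.1)
  obtain ⟨a, b, hab, ha, hb⟩ : ∃ a b : ℤ, IsCoprime a b ∧ g ^ 2 = a * d ∧ w = b * d := by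
    obtain ⟨a, b, h1, h2, h3⟩ := Int.exists_gcd_one (m := g ^ 2) (n := w) (by
      apply Int.gcd_pos_of_ne_zero_left
      exact pow_ne_zero 2 hg)
    exact ⟨a, b, Int.isCoprime_iff_gcd_eq_one.2 h1, h2, h3⟩
  have h1 : a ^ 2 ∣ k * b ^ 2 := by
    obtain ⟨c, hc⟩ := h
    refine ⟨c, ?_⟩
    have h2 : (d : ℤ) ^ 2 ≠ 0 := pow_ne_zero 2 hd0
    apply mul_left_cancel₀ h2
    have h3 : g ^ 4 = (g ^ 2) ^ 2 := by ring
    rw [h3, ha, hb] at hc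
    linear_combination hc
  have h2 : a ^ 2 ∣ k := (hab.pow (m := 2) (n := 2)).dvd_of_dvd_mul_right h1
  have h3 : IsUnit a := hk a (by rwa [← sq])
  obtain ⟨u, hu⟩ := h3.exists_left_inv
  rw [ha, hb]
  refine ⟨u * b, ?_⟩
  linear_combination (-b * d) * hu

/-- reduction to lowest terms -/
theorem reduce {k X Y W : ℤ} (hk : Squarefree k) (h : X ^ 4 + Y ^ 4 = k * W ^ 2) (hW : W ≠ 0) :
    ∃ g x y w : ℤ, g ≠ 0 ∧ X = g * x ∧ Y = g * y ∧ W = g ^ 2 * w ∧ IsCoprime x y ∧ x ^ 4 + y ^ 4 = k * w ^ 2 := by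
  have hpos : 0 < Int.gcd X Y := by
    rw [Nat.pos_iff_ne_zero]
    intro h0
    rw [Int.gcd_eq_zero_iff] at h0
    rw [h0.1, h0.2] at h
    have h1 : k * W ^ 2 = 0 := by rw [← h]; norm_num
    rcases mul_eq_zero.1 h1 with h2 | h2
    · exact hk.ne_zero h2
    · exact hW (pow_eq_zero_iff (two_ne_zero) |>.1 h2)
  obtain ⟨x, y, h1, h2, h3⟩ := Int.exists_gcd_one (m := X) (n := Y) hpos
  set g : ℤ := (Int.gcd X Y : ℤ) with hg
  have hg0 : g ≠ 0 := by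
    rw [hg]
    exact_mod_cast hpos.ne'
  have h4 : g ^ 4 ∣ k * W ^ 2 := by
    refine ⟨x ^ 4 + y ^ 4, ?_⟩
    rw [← h, h2, h3]
    ring
  obtain ⟨w, hw⟩ := sq_dvd_of hk h4
  refine ⟨g, x, y, w, hg0, by rw [h2]; ring, by rw [h3]; ring, hw, Int.isCoprime_iff_gcd_eq_one.2 h1, ?_⟩
  have h5 : g ^ 4 ≠ 0 := pow_ne_zero 4 hg0
  apply mul_left_cancel₀ h5
  rw [hw] at h
  rw [h2, h3] at h
  linear_combination h

/-- the multiples `(2m+1) P` of the point `P = (x, y, w)` -/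
theorem seq {k x y a : ℤ} {p e : ℕ} (hp : p.Prime) (hp2 : p ≠ 2) (he : 1 ≤ e) (hc : IsCoprime x y)
    (h : x ^ 4 + y ^ 4 = k * ((p : ℤ) ^ e * a) ^ 2) (m : ℕ) :
    ∃ x₁ y₁ a₁ : ℤ, x₁ ^ 4 + y₁ ^ 4 = k * ((p : ℤ) ^ e * a₁) ^ 2 ∧ ¬ (p : ℤ) ∣ y₁ ∧
      (p : ℤ) ^ 2 ∣ x₁ * y - x * y₁ ∧ (p : ℤ) ^ 2 ∣ a₁ * y ^ 2 - (2 * m + 1) * a * y₁ ^ 2 := by
  have hpz : Prime (p : ℤ) := Nat.prime_iff_prime_int.1 hp
  have hpe : (p : ℤ) ∣ (p : ℤ) ^ e := dvd_pow_self _ (by omega)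
  have hp4 : (p : ℤ) ^ 2 ∣ x ^ 4 + y ^ 4 := by
    rw [h]
    have : (p : ℤ) ^ 2 ∣ ((p : ℤ) ^ e * a) ^ 2 := pow_dvd_pow_of_dvd (hpe.mul_right a) 2
    exact this.mul_left k
  have hp1 : (p : ℤ) ∣ x ^ 4 + y ^ 4 := (dvd_pow_self _ two_ne_zero).trans hp4
  have hpy : ¬ (p : ℤ) ∣ y := by
    intro hy
    have h1 : (p : ℤ) ∣ x ^ 4 := by
      have h2 : (p : ℤ) ∣ y ^ 4 := hy.trans (dvd_pow_self _ (by norm_num))
      have h3 := dvd_sub hp1 h2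
      simpa using h3
    have h2 := hpz.dvd_of_dvd_pow h1
    exact hpz.not_isUnit (hc.isUnit_of_dvd' h2 hy)
  have hpx : ¬ (p : ℤ) ∣ x := by
    intro hx
    have h1 : (p : ℤ) ∣ y ^ 4 := by
      have h2 : (p : ℤ) ∣ x ^ 4 := hx.trans (dvd_pow_self _ (by norm_num))
      have h3 := dvd_sub hp1 h2
      simpa using h3
    exact hpy (hpz.dvd_of_dvd_pow h1)
  have hps : ¬ (p : ℤ) ∣ x ^ 4 - y ^ 4 := by
    intro hs
    have h1 : (p : ℤ) ∣ 2 * x ^ 4 := by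
      have h2 := dvd_add hp1 hs
      have e1 : x ^ 4 + y ^ 4 + (x ^ 4 - y ^ 4) = 2 * x ^ 4 := by ring
      rwa [e1] at h2
    rcases hpz.dvd_or_dvd h1 with h2 | h2
    · have h3 : p ∣ 2 := by exact_mod_cast h2
      exact hp2 ((Nat.prime_dvd_prime_iff_eq hp Nat.prime_two).1 h3)
    · exact hpx (hpz.dvd_of_dvd_pow h2)
  induction m with
  | zero =>
    refine ⟨x, y, a, h, hpy, ?_, ?_⟩
    · simp
    · simp
  | succ m ih =>
    obtain ⟨x₁, y₁, a₁, i1, i2, i3, i4⟩ := ih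
    set w : ℤ := (p : ℤ) ^ e * a with hw
    set s : ℤ := x ^ 4 - y ^ 4 with hs
    set τ : ℤ := 2 * x * y * a with hτ
    set t : ℤ := (p : ℤ) ^ e * τ with ht
    set r : ℤ := x ^ 8 + 6 * x ^ 4 * y ^ 4 + y ^ 8 with hr
    have ht' : t = 2 * x * y * w := by rw [ht, hτ, hw]; ring
    have hr2 : r ^ 2 = s ^ 4 + k ^ 2 * t ^ 4 := by
      rw [ht', hr, hs]
      exact dbl_id k x y w h
    set X' : ℤ := x₁ * y₁ * r - k * s * (t * ((p : ℤ) ^ e * a₁)) with hX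
    set Y' : ℤ := k * x₁ ^ 2 * t ^ 2 - s ^ 2 * y₁ ^ 2 with hY
    set A' : ℤ := 2 * x₁ * y₁ * s * τ * (x₁ ^ 2 * s ^ 2 + k * y₁ ^ 2 * t ^ 2) -
      r * a₁ * (k * x₁ ^ 2 * t ^ 2 + s ^ 2 * y₁ ^ 2) with hA
    have hid := add_id k x₁ y₁ ((p : ℤ) ^ e * a₁) s t r i1 hr2
    -- divisibility
    have hpt : (p : ℤ) ∣ t := by rw [ht]; exact hpe.mul_right τ
    have d1 : (p : ℤ) ^ 2 ∣ t ^ 2 := pow_dvd_pow_of_dvd hpt 2
    have d2 : (p : ℤ) ^ 2 ∣ t * ((p : ℤ) ^ e * a₁) := by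
      rw [sq]
      exact mul_dvd_mul hpt (hpe.mul_right a₁)
    have d3 : (p : ℤ) ^ 2 ∣ r + s ^ 2 := by
      have e1 : r + s ^ 2 = 2 * (x ^ 4 + y ^ 4) ^ 2 := by rw [hr, hs]; ring
      rw [e1]
      exact (hp4.trans (dvd_pow_self _ two_ne_zero)).mul_left 2
    -- in the ring
    have z1 : ((t : ℤ) : ZMod (p ^ 2)) ^ 2 = 0 := by
      have := (ZMod.intCast_zmod_eq_zero_iff_dvd (t ^ 2) (p ^ 2)).2 (by exact_mod_cast d1)
      exact_mod_cast this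
    have z2 : ((t * ((p : ℤ) ^ e * a₁) : ℤ) : ZMod (p ^ 2)) = 0 :=
      (ZMod.intCast_zmod_eq_zero_iff_dvd _ (p ^ 2)).2 (by exact_mod_cast d2)
    have z3 : ((r : ℤ) : ZMod (p ^ 2)) = -(s : ZMod (p ^ 2)) ^ 2 := by
      have := (ZMod.intCast_zmod_eq_zero_iff_dvd (r + s ^ 2) (p ^ 2)).2 (by exact_mod_cast d3)
      push_cast at this
      linear_combination this
    have z4 : (x : ZMod (p ^ 2)) ^ 4 + (y : ZMod (p ^ 2)) ^ 4 = 0 := by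
      have := (ZMod.intCast_zmod_eq_zero_iff_dvd (x ^ 4 + y ^ 4) (p ^ 2)).2 (by exact_mod_cast hp4)
      push_cast at this
      exact this
    have z5 : (x₁ : ZMod (p ^ 2)) * y = x * y₁ := by
      have := (ZMod.intCast_zmod_eq_zero_iff_dvd (x₁ * y - x * y₁) (p ^ 2)).2 (by exact_mod_cast i3)
      push_cast at this
      linear_combination this
    have z6 : (a₁ : ZMod (p ^ 2)) * y ^ 2 = (2 * m + 1) * a * y₁ ^ 2 := by
      have := (ZMod.intCast_zmod_eq_zero_iff_dvd (a₁ * y ^ 2 - (2 * m + 1) * a * y₁ ^ 2) (p ^ 2)).2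
        (by exact_mod_cast i4)
      push_cast at this
      linear_combination this
    have z7 : (s : ZMod (p ^ 2)) = (x : ZMod (p ^ 2)) ^ 4 - (y : ZMod (p ^ 2)) ^ 4 := by
      rw [hs]; push_cast; ring
    have z8 : (τ : ZMod (p ^ 2)) = 2 * (x : ZMod (p ^ 2)) * y * a := by
      rw [hτ]; push_cast; ring
    obtain ⟨c1, c2⟩ := ring_step (k : ZMod (p ^ 2)) x y x₁ y₁ a a₁ s t τ r (2 * m + 1)
      ((t * ((p : ℤ) ^ e * a₁) : ℤ) : ZMod (p ^ 2)) z1 z2 z3 z4 z7 z8 z5 z6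
    refine ⟨X', Y', A', ?_, ?_, ?_, ?_⟩
    · rw [hX, hY, hA]
      have e1 : x₁ * y₁ * r - k * s * (t * ((p : ℤ) ^ e * a₁)) = x₁ * y₁ * r - k * s * t * ((p : ℤ) ^ e * a₁) := by
        ring
      rw [e1, hid]
      rw [ht]
      ring
    · intro hdvd
      have h1 : (p : ℤ) ∣ s ^ 2 * y₁ ^ 2 := by
        have h2 : (p : ℤ) ∣ k * x₁ ^ 2 * t ^ 2 := (hpt.trans (dvd_pow_self _ two_ne_zero)).mul_left _
        have h3 := dvd_sub h2 hdvd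
        have e1 : k * x₁ ^ 2 * t ^ 2 - Y' = s ^ 2 * y₁ ^ 2 := by rw [hY]; ring
        rwa [e1] at h3
      rcases hpz.dvd_or_dvd h1 with h2 | h2
      · exact hps (hpz.dvd_of_dvd_pow h2)
      · exact i2 (hpz.dvd_of_dvd_pow h2)
    · have h1 : ((X' * y - x * Y' : ℤ) : ZMod (p ^ 2)) = 0 := by
        rw [hX, hY]
        push_cast
        push_cast at c1
        linear_combination c1
      have := (ZMod.intCast_zmod_eq_zero_iff_dvd (X' * y - x * Y') (p ^ 2)).1 h1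
      exact_mod_cast this
    · have h1 : ((A' * y ^ 2 - (2 * ((m + 1 : ℕ) : ℤ) + 1) * a * Y' ^ 2 : ℤ) : ZMod (p ^ 2)) = 0 := by
        rw [hA, hY]
        push_cast
        linear_combination c2
      have := (ZMod.intCast_zmod_eq_zero_iff_dvd _ (p ^ 2)).1 h1
      exact_mod_cast this

theorem two_mul_add_one_of_prime {p : ℕ} (hp : p.Prime) (hp2 : p ≠ 2) : ∃ m : ℕ, 2 * m + 1 = p := by
  rcases hp.eq_two_or_odd' with h | h
  · exact absurd h hp2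
  · obtain ⟨m, hm⟩ := h
    exact ⟨m, hm.symm⟩

/-- **the step at a prime**: the exponent of `p` in `w` can be raised by one -/
theorem pstep {k x y w : ℤ} (hk : Squarefree k) {p e : ℕ} (hp : p.Prime) (hp2 : p ≠ 2) (he : 1 ≤ e)
    (hc : IsCoprime x y) (h : x ^ 4 + y ^ 4 = k * w ^ 2) (h1 : (p : ℤ) ^ e ∣ w) (h2 : ¬ (p : ℤ) ^ (e + 1) ∣ w) :
    ∃ x' y' w' : ℤ, IsCoprime x' y' ∧ x' ^ 4 + y' ^ 4 = k * w' ^ 2 ∧ (p : ℤ) ^ (e + 1) ∣ w' ∧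
      ¬ (p : ℤ) ^ (e + 2) ∣ w' := by
  have hpz : Prime (p : ℤ) := Nat.prime_iff_prime_int.1 hp
  have hp0 : (p : ℤ) ≠ 0 := hpz.ne_zero
  obtain ⟨a, rfl⟩ := h1
  have ha : ¬ (p : ℤ) ∣ a := by
    intro h3
    apply h2
    rw [pow_succ]
    exact mul_dvd_mul_left _ h3
  obtain ⟨m, hm⟩ := two_mul_add_one_of_prime hp hp2
  obtain ⟨x₁, y₁, a₁, i1, i2, -, i4⟩ := seq hp hp2 he hc h m
  have hm' : (2 * (m : ℤ) + 1) = p := by exact_mod_cast hm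
  rw [hm'] at i4
  have hpe : (p : ℤ) ∣ (p : ℤ) ^ e := dvd_pow_self _ (by omega)
  have hpy : ¬ (p : ℤ) ∣ y := by
    intro hy
    have h4 : (p : ℤ) ∣ x ^ 4 + y ^ 4 := by
      rw [h]
      exact ((hpe.mul_right a).trans (dvd_pow_self _ two_ne_zero)).mul_left k
    have h5 : (p : ℤ) ∣ x ^ 4 := by
      have h6 : (p : ℤ) ∣ y ^ 4 := hy.trans (dvd_pow_self _ (by norm_num))
      have h7 := dvd_sub h4 h6
      simpa using h7
    exact hpz.not_isUnit (hc.isUnit_of_dvd' (hpz.dvd_of_dvd_pow h5) hy)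
  have hpa₁ : (p : ℤ) ∣ a₁ := by
    have h3 : (p : ℤ) ∣ a₁ * y ^ 2 - p * a * y₁ ^ 2 := (dvd_pow_self _ two_ne_zero).trans i4
    have h4 : (p : ℤ) ∣ p * a * y₁ ^ 2 := by
      rw [mul_assoc]
      exact dvd_mul_right _ _
    have h5 := dvd_add h3 h4
    rw [sub_add_cancel] at h5
    rcases hpz.dvd_or_dvd h5 with h6 | h6
    · exact h6
    · exact absurd (hpz.dvd_of_dvd_pow h6) hpy
  have hpa₂ : ¬ (p : ℤ) ^ 2 ∣ a₁ := by
    intro h3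
    have h4 : (p : ℤ) ^ 2 ∣ p * (a * y₁ ^ 2) := by
      have h5 := dvd_sub (h3.mul_right (y ^ 2)) i4
      have e1 : a₁ * y ^ 2 - (a₁ * y ^ 2 - p * a * y₁ ^ 2) = p * (a * y₁ ^ 2) := by ring
      rwa [e1] at h5
    rw [sq] at h4
    have h5 := (mul_dvd_mul_iff_left hp0).1 h4
    rcases hpz.dvd_or_dvd h5 with h6 | h6
    · exact ha h6
    · exact i2 (hpz.dvd_of_dvd_pow h6)
  have ha₁ : a₁ ≠ 0 := by
    rintro rfl
    exact hpa₂ (dvd_zero _)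
  obtain ⟨g, x', y', w', hg, hX, hY, hW, hc', h'⟩ := reduce hk i1 (mul_ne_zero (pow_ne_zero e hp0) ha₁)
  have hpg : ¬ (p : ℤ) ∣ g := by
    intro h3
    apply i2
    rw [hY]
    exact h3.mul_right y'
  refine ⟨x', y', w', hc', h', ?_, ?_⟩
  · have h3 : (p : ℤ) ^ (e + 1) ∣ g ^ 2 * w' := by
      rw [← hW, pow_succ]
      exact mul_dvd_mul_left _ hpa₁
    have h4 : IsCoprime ((p : ℤ) ^ (e + 1)) (g ^ 2) := ((hpz.coprime_iff_not_dvd).2 hpg).pow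
    exact h4.dvd_of_dvd_mul_left h3
  · intro h3
    apply hpa₂
    have h4 : (p : ℤ) ^ e * (p : ℤ) ^ 2 ∣ (p : ℤ) ^ e * a₁ := by
      rw [← pow_add, hW]
      exact h3.mul_left _
    exact (mul_dvd_mul_iff_left (pow_ne_zero e hp0)).1 h4

/-- all bigger exponents occur -/
theorem psteps {k x y w : ℤ} (hk : Squarefree k) {p e : ℕ} (hp : p.Prime) (hp2 : p ≠ 2) (he : 1 ≤ e)
    (hc : IsCoprime x y) (h : x ^ 4 + y ^ 4 = k * w ^ 2) (h1 : (p : ℤ) ^ e ∣ w) (h2 : ¬ (p : ℤ) ^ (e + 1) ∣ w)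
    (n : ℕ) :
    ∃ x' y' w' : ℤ, IsCoprime x' y' ∧ x' ^ 4 + y' ^ 4 = k * w' ^ 2 ∧ (p : ℤ) ^ (e + n) ∣ w' ∧
      ¬ (p : ℤ) ^ (e + n + 1) ∣ w' := by
  induction n with
  | zero => exact ⟨x, y, w, hc, h, h1, h2⟩
  | succ n ih =>
    obtain ⟨x', y', w', c1, c2, c3, c4⟩ := ih
    exact pstep (e := e + n) hk hp hp2 (by omega) c1 c2 c3 c4

end Quart
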