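import Pool.Agent.Lib.MP_9b5ce2_nt.Tri

/-!
# Arbitrarily many and arbitrarily large primes divide w; prescribed exponents; square factors
-/

set_option autoImplicit false

namespace Quart

/-- points with many primes in `w` -/
theorem many {k x y w : ℤ} (hk : Squarefree k) (hc : IsCoprime x y) (h : x ^ 4 + y ^ 4 = k * w ^ 2)
    (h2 : 2 < x ^ 4 + y ^ 4) (j : ℕ) :
    ∃ x' y' w' : ℤ, IsCoprime x' y' ∧ x' ^ 4 + y' ^ 4 = k * w' ^ 2 ∧ 2 < x' ^ 4 + y' ^ 4 ∧
      j ≤ w'.natAbs.primeFactors.card := by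
  induction j with
  | zero => exact ⟨x, y, w, hc, h, h2, Nat.zero_le _⟩
  | succ j ih =>
    obtain ⟨x₁, y₁, w₁, c1, c2, c3, c4⟩ := ih
    obtain ⟨x₂, y₂, w₂, B, d1, d2, d3, rfl, d5, d6⟩ := tri hk c1 c2 c3
    refine ⟨x₂, y₂, w₁ * B, d1, d2, d3, ?_⟩
    have hw₁ : w₁ ≠ 0 := (k_pos c3 c2).2
    have hB0 : B ≠ 0 := by omega
    have hB1 : B.natAbs ≠ 1 := by omega
    obtain ⟨q, hq, hqB⟩ := Nat.exists_prime_and_dvd hB1
    have hqw : q ∉ w₁.natAbs.primeFactors := by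
      intro hmem
      have h3 : q ∣ w₁.natAbs := Nat.dvd_of_mem_primeFactors hmem
      have h4 : IsCoprime B w₁ := d6
      have h5 : Nat.Coprime B.natAbs w₁.natAbs := Int.isCoprime_iff_gcd_eq_one.1 h4
      have h6 : q ∣ 1 := by
        rw [← h5]
        exact Nat.dvd_gcd hqB h3
      exact hq.one_lt.ne' (Nat.dvd_one.1 h6)
    have hsub : insert q w₁.natAbs.primeFactors ⊆ (w₁ * B).natAbs.primeFactors := by
      rw [Int.natAbs_mul]
      intro r hr
      rw [Finset.mem_insert] at hr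
      have hne : w₁.natAbs * B.natAbs ≠ 0 := mul_ne_zero (Int.natAbs_ne_zero.2 hw₁) (Int.natAbs_ne_zero.2 hB0)
      rcases hr with rfl | hr
      · exact Nat.mem_primeFactors.2 ⟨hq, hqB.mul_left _, hne⟩
      · exact Nat.mem_primeFactors.2 ⟨Nat.prime_of_mem_primeFactors hr,
          (Nat.dvd_of_mem_primeFactors hr).mul_right _, hne⟩
    have h7 := Finset.card_le_card hsub
    rw [Finset.card_insert_of_notMem hqw] at h7
    omega

/-- points with a large prime in `w` -/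
theorem big_prime {k x y w : ℤ} (hk : Squarefree k) (hc : IsCoprime x y) (h : x ^ 4 + y ^ 4 = k * w ^ 2)
    (h2 : 2 < x ^ 4 + y ^ 4) (N : ℕ) :
    ∃ x' y' w' : ℤ, ∃ q : ℕ, IsCoprime x' y' ∧ x' ^ 4 + y' ^ 4 = k * w' ^ 2 ∧ 2 < x' ^ 4 + y' ^ 4 ∧
      q.Prime ∧ N < q ∧ (q : ℤ) ∣ w' := by
  obtain ⟨x₁, y₁, w₁, c1, c2, c3, c4⟩ := many hk hc h h2 (N + 2)
  obtain ⟨q, hq1, hq2⟩ : ∃ q ∈ w₁.natAbs.primeFactors, N < q := by
    by_contra hcon
    push Not at hcon
    have h3 : w₁.natAbs.primeFactors ⊆ Finset.range (N + 1) := by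
      intro q hq
      rw [Finset.mem_range]
      have := hcon q hq
      omega
    have h4 := Finset.card_le_card h3
    rw [Finset.card_range] at h4
    omega
  refine ⟨x₁, y₁, w₁, q, c1, c2, c3, Nat.prime_of_mem_primeFactors hq1, hq2, ?_⟩
  exact Int.natCast_dvd.2 (Nat.dvd_of_mem_primeFactors hq1)

/-- `k m^2` is fourth-power-free when `k` and `m` are squarefree -/
theorem fourth_free {k m : ℤ} (hk : Squarefree k) (hm : Squarefree m) (d : ℤ) (hd : d ^ 4 ∣ k * m ^ 2) :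
    IsUnit d := by
  by_contra hu
  have hne : k * m ^ 2 ≠ 0 := mul_ne_zero hk.ne_zero (pow_ne_zero 2 hm.ne_zero)
  have hd0 : d ≠ 0 := by
    rintro rfl
    apply hne
    rw [zero_pow (by norm_num)] at hd
    exact zero_dvd_iff.1 hd
  obtain ⟨q, hq, hqd⟩ := Int.exists_prime_and_dvd (n := d) (fun h => hu (Int.isUnit_iff_natAbs_eq.2 h))
  have hq4 : q ^ 4 ∣ k * m ^ 2 := (pow_dvd_pow_of_dvd hqd 4).trans hd
  have hq0 : q ≠ 0 := hq.ne_zero
  have hqk : ¬ q ^ 2 ∣ k := by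
    intro h
    exact hq.not_isUnit (hk q (by rwa [← sq]))
  by_cases hqm : q ∣ m
  · obtain ⟨m', rfl⟩ := hqm
    have hqm' : ¬ q ∣ m' := by
      intro h
      exact hq.not_isUnit (hm q (mul_dvd_mul_left q h))
    have h1 : q ^ 2 ∣ k * m' ^ 2 := by
      have h2 : q ^ 2 * q ^ 2 ∣ q ^ 2 * (k * m' ^ 2) := by
        have e1 : q ^ 2 * q ^ 2 = q ^ 4 := by ring
        have e2 : q ^ 2 * (k * m' ^ 2) = k * (q * m') ^ 2 := by ring
        rw [e1, e2]
        exact hq4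
      exact (mul_dvd_mul_iff_left (pow_ne_zero 2 hq0)).1 h2
    have h3 : IsCoprime (q ^ 2) (m' ^ 2) := (((hq.coprime_iff_not_dvd).2 hqm').pow)
    exact hqk (h3.dvd_of_dvd_mul_right h1)
  · have h3 : IsCoprime (q ^ 4) (m ^ 2) := (((hq.coprime_iff_not_dvd).2 hqm).pow)
    have h4 := h3.dvd_of_dvd_mul_right hq4
    exact hqk ((pow_dvd_pow q (by norm_num)).trans h4)

/-- the square part of an integer with an exact odd power `q^(2e+1)`, `e ≥ 1` -/
theorem split_sq {w : ℤ} {q e : ℕ} (hq : q.Prime) (he : 1 ≤ e) (h1 : (q : ℤ) ^ (2 * e + 1) ∣ w)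
    (h2 : ¬ (q : ℤ) ^ (2 * e + 2) ∣ w) :
    ∃ a b : ℕ, w.natAbs = b ^ 2 * a ∧ Squarefree a ∧ q ∣ a ∧ 1 < b := by
  obtain ⟨a, b, hab, ha⟩ := Nat.sq_mul_squarefree w.natAbs
  have hw0 : w ≠ 0 := by
    rintro rfl
    exact h2 (dvd_zero _)
  have hwn : w.natAbs ≠ 0 := Int.natAbs_ne_zero.2 hw0
  have h1' : q ^ (2 * e + 1) ∣ w.natAbs := by
    have := Int.natAbs_dvd_natAbs.2 h1
    simpa [Int.natAbs_pow] using this
  have h2' : ¬ q ^ (2 * e + 2) ∣ w.natAbs := by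
    intro h
    apply h2
    have := Int.natCast_dvd.2 h
    exact_mod_cast this
  have hb0 : b ≠ 0 := by
    rintro rfl
    apply hwn
    rw [← hab]
    ring
  refine ⟨a, b, hab.symm, ha, ?_, ?_⟩
  · by_contra hqa
    have hcop : Nat.Coprime (q ^ (2 * e + 1)) a := ((Nat.Prime.coprime_iff_not_dvd hq).2 hqa).pow_left _
    have h3 : q ^ (2 * e + 1) ∣ b ^ 2 := by
      rw [← hab] at h1'
      exact hcop.dvd_of_dvd_mul_right h1'
    have h4 : 2 * e + 1 ≤ (b ^ 2).factorization q :=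
      (Nat.Prime.pow_dvd_iff_le_factorization hq (pow_ne_zero 2 hb0)).1 h3
    rw [Nat.factorization_pow, Finsupp.smul_apply, smul_eq_mul] at h4
    have h5 : q ^ (e + 1) ∣ b := (Nat.Prime.pow_dvd_iff_le_factorization hq hb0).2 (by omega)
    apply h2'
    rw [← hab]
    have h6 : (q ^ (e + 1)) ^ 2 ∣ b ^ 2 := pow_dvd_pow_of_dvd h5 2
    have e1 : (q ^ (e + 1)) ^ 2 = q ^ (2 * e + 2) := by rw [← pow_mul]; congr 1; ring
    rw [e1] at h6
    exact h6.mul_right a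
  · by_contra hb
    have hb1 : b = 1 := by omega
    rw [hb1] at hab
    have h3 : Squarefree w.natAbs := by
      rw [← hab]
      simpa using ha
    have h4 : q * q ∣ w.natAbs := by
      refine Dvd.dvd.trans ?_ h1'
      rw [← sq]
      exact pow_dvd_pow q (by omega)
    exact hq.one_lt.ne' (Nat.isUnit_iff.1 (h3 q h4))

end Quart
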