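import Mathlib

/-!
# The curve x^4 + y^4 = k w^2: translation by twice a point, raising the power of a prime in w
-/

set_option autoImplicit false

namespace Quart

/-- translation of the point `(x₁, y₁, w₁)` of `x^4 + y^4 = k w^2` by the point `(s, t, r)` of `r^2 = s^4 + k^2 t^4` -/
theorem add_id (k x₁ y₁ w₁ s t r : ℤ) (h : x₁ ^ 4 + y₁ ^ 4 = k * w₁ ^ 2) (hr : r ^ 2 = s ^ 4 + k ^ 2 * t ^ 4) :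
    (x₁ * y₁ * r - k * s * t * w₁) ^ 4 + (k * x₁ ^ 2 * t ^ 2 - s ^ 2 * y₁ ^ 2) ^ 4 =
      k * (2 * x₁ * y₁ * s * t * (x₁ ^ 2 * s ^ 2 + k * y₁ ^ 2 * t ^ 2) -
        r * w₁ * (k * x₁ ^ 2 * t ^ 2 + s ^ 2 * y₁ ^ 2)) ^ 2 := by
  have h1 : (x₁ * y₁ * r - k * s * t * w₁) ^ 2 =
      x₁ ^ 2 * y₁ ^ 2 * (s ^ 4 + k ^ 2 * t ^ 4) + k * s ^ 2 * t ^ 2 * (x₁ ^ 4 + y₁ ^ 4) -
        2 * k * s * t * x₁ * y₁ * (r * w₁) := by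
    linear_combination (x₁ ^ 2 * y₁ ^ 2) * hr - (k * s ^ 2 * t ^ 2) * h
  have h2 : k * (r * w₁) ^ 2 = (s ^ 4 + k ^ 2 * t ^ 4) * (x₁ ^ 4 + y₁ ^ 4) := by
    linear_combination (k * w₁ ^ 2) * hr - (s ^ 4 + k ^ 2 * t ^ 4) * h
  linear_combination ((x₁ * y₁ * r - k * s * t * w₁) ^ 2 +
      (x₁ ^ 2 * y₁ ^ 2 * (s ^ 4 + k ^ 2 * t ^ 4) + k * s ^ 2 * t ^ 2 * (x₁ ^ 4 + y₁ ^ 4) -
        2 * k * s * t * x₁ * y₁ * (r * w₁))) * h1 +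
    (4 * k * s ^ 2 * t ^ 2 * x₁ ^ 2 * y₁ ^ 2 - (k * x₁ ^ 2 * t ^ 2 + s ^ 2 * y₁ ^ 2) ^ 2) * h2

/-- twice a point -/
theorem dbl_id (k x y w : ℤ) (h : x ^ 4 + y ^ 4 = k * w ^ 2) :
    (x ^ 8 + 6 * x ^ 4 * y ^ 4 + y ^ 8) ^ 2 = (x ^ 4 - y ^ 4) ^ 4 + k ^ 2 * (2 * x * y * w) ^ 4 := by
  linear_combination (16 * x ^ 4 * y ^ 4 * (x ^ 4 + y ^ 4 + k * w ^ 2)) * h

/-- the step: three times a point -/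
theorem tri_id (k x y w : ℤ) (h : x ^ 4 + y ^ 4 = k * w ^ 2) :
    (x * (x ^ 8 - 6 * x ^ 4 * y ^ 4 - 3 * y ^ 8)) ^ 4 + (y * (3 * x ^ 8 + 6 * x ^ 4 * y ^ 4 - y ^ 8)) ^ 4 =
      k * (w * (x ^ 16 + 28 * x ^ 12 * y ^ 4 + 6 * x ^ 8 * y ^ 8 + 28 * x ^ 4 * y ^ 12 + y ^ 16)) ^ 2 := by
  linear_combination (x ^ 16 + 28 * x ^ 12 * y ^ 4 + 6 * x ^ 8 * y ^ 8 + 28 * x ^ 4 * y ^ 12 + y ^ 16) ^ 2 * h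

/-- the inductive step in a commutative ring where `t^2 = 0`, `t w₁ = 0` -/
theorem ring_step {R : Type*} [CommRing R] (k x y x₁ y₁ a a₁ s t τ r n tw : R)
    (ht : t ^ 2 = 0) (htw : tw = 0) (hr : r = -s ^ 2) (hxy : x ^ 4 + y ^ 4 = 0) (hs : s = x ^ 4 - y ^ 4)
    (hτ : τ = 2 * x * y * a) (h1 : x₁ * y = x * y₁) (h2 : a₁ * y ^ 2 = n * a * y₁ ^ 2) :
    (x₁ * y₁ * r - k * s * tw) * y = x * (k * x₁ ^ 2 * t ^ 2 - s ^ 2 * y₁ ^ 2) ∧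
    (2 * x₁ * y₁ * s * τ * (x₁ ^ 2 * s ^ 2 + k * y₁ ^ 2 * t ^ 2) - r * a₁ * (k * x₁ ^ 2 * t ^ 2 + s ^ 2 * y₁ ^ 2)) * y ^ 2 =
      (n + 2) * a * (k * x₁ ^ 2 * t ^ 2 - s ^ 2 * y₁ ^ 2) ^ 2 := by
  have hs2 : s = 2 * x ^ 4 := by linear_combination hs - hxy
  refine ⟨?_, ?_⟩
  · rw [ht, htw, hr]
    linear_combination (-s ^ 2 * y₁) * h1
  · have h3 : x₁ ^ 3 * y ^ 3 = x ^ 3 * y₁ ^ 3 := by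
      have : (x₁ * y) ^ 3 = (x * y₁) ^ 3 := by rw [h1]
      linear_combination this
    rw [ht, hr, hτ]
    have h4 : (2 * x₁ * y₁ * s * (2 * x * y * a) * (x₁ ^ 2 * s ^ 2 + k * y₁ ^ 2 * 0) -
        -s ^ 2 * a₁ * (k * x₁ ^ 2 * 0 + s ^ 2 * y₁ ^ 2)) * y ^ 2 =
        4 * (x₁ ^ 3 * y ^ 3) * x * y₁ * s ^ 3 * a + s ^ 4 * y₁ ^ 2 * (a₁ * y ^ 2) := by ring
    rw [h4, h3, h2]
    have h5 : 4 * (x ^ 3 * y₁ ^ 3) * x * y₁ * s ^ 3 * a = 2 * (2 * x ^ 4) * s ^ 3 * y₁ ^ 4 * a := by ring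
    rw [h5, ← hs2]
    ring

end Quart
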