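import Pool.Agent.Lib.MP_9b5ce2_nt.PStep

/-!
# Tripling gives new primes in w
-/

set_option autoImplicit false

namespace Quart

theorem coprime_w {k x y w : ℤ} (hc : IsCoprime x y) (h : x ^ 4 + y ^ 4 = k * w ^ 2) : IsCoprime y w := by
  have h1 : IsCoprime (y ^ 4) (k * w ^ 2) := by
    rw [← h]
    have h2 : IsCoprime (y ^ 4) (x ^ 4) := (hc.symm).pow
    have h3 := IsCoprime.add_mul_left_right h2 1
    rwa [mul_one] at h3
  have h2 : IsCoprime (y ^ 4) (w ^ 2) := h1.of_mul_right_right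
  exact (IsCoprime.pow_iff (by norm_num) (by norm_num)).1 h2

/-- `w` is prime to `2` -/
theorem coprime_two {k x y w : ℤ} (hc : IsCoprime x y) (h : x ^ 4 + y ^ 4 = k * w ^ 2) : IsCoprime 2 w := by
  have h2 : Prime (2 : ℤ) := Int.prime_two
  rw [h2.coprime_iff_not_dvd]
  rintro ⟨v, rfl⟩
  have h4 : x ^ 4 + y ^ 4 = 4 * (k * v ^ 2) := by rw [h]; ring
  have hodd : ∀ a : ℤ, a ^ 4 % 4 = 0 ∨ a ^ 4 % 4 = 1 := by
    intro a
    rcases Int.even_or_odd' a with ⟨b, rfl | rfl⟩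
    · left
      have : (2 * b) ^ 4 = 4 * (4 * b ^ 4) := by ring
      omega
    · right
      have : (2 * b + 1) ^ 4 = 4 * (4 * b ^ 4 + 8 * b ^ 3 + 6 * b ^ 2 + 2 * b) + 1 := by ring
      omega
  have hx : x ^ 4 % 4 = 0 := by
    rcases hodd x with h5 | h5 <;> rcases hodd y with h6 | h6 <;> omega
  have hy : y ^ 4 % 4 = 0 := by
    rcases hodd x with h5 | h5 <;> rcases hodd y with h6 | h6 <;> omega
  have hx2 : (2 : ℤ) ∣ x := h2.dvd_of_dvd_pow (show (2 : ℤ) ∣ x ^ 4 by omega)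
  have hy2 : (2 : ℤ) ∣ y := h2.dvd_of_dvd_pow (show (2 : ℤ) ∣ y ^ 4 by omega)
  exact h2.not_isUnit (hc.isUnit_of_dvd' hx2 hy2)

/-- `w` is prime to `3` -/
theorem coprime_three {k x y w : ℤ} (hc : IsCoprime x y) (h : x ^ 4 + y ^ 4 = k * w ^ 2) : IsCoprime 3 w := by
  have h2 : Prime (3 : ℤ) := Int.prime_three
  rw [h2.coprime_iff_not_dvd]
  rintro ⟨v, rfl⟩
  have h4 : x ^ 4 + y ^ 4 = 3 * (3 * k * v ^ 2) := by rw [h]; ring
  have hodd : ∀ a : ℤ, a ^ 4 % 3 = 0 ∨ a ^ 4 % 3 = 1 := by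
    intro a
    have h5 : a % 3 = 0 ∨ a % 3 = 1 ∨ a % 3 = 2 := by omega
    rcases h5 with h5 | h5 | h5
    · left
      rw [pow_succ, pow_succ, pow_succ, pow_one, Int.mul_emod, h5]; simp
    · right
      have : a ^ 4 ≡ 1 ^ 4 [ZMOD 3] := Int.ModEq.pow 4 h5
      exact this
    · right
      have : a ^ 4 ≡ 2 ^ 4 [ZMOD 3] := Int.ModEq.pow 4 h5
      exact this
  have hx : x ^ 4 % 3 = 0 := by
    rcases hodd x with h5 | h5 <;> rcases hodd y with h6 | h6 <;> omega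
  have hy : y ^ 4 % 3 = 0 := by
    rcases hodd x with h5 | h5 <;> rcases hodd y with h6 | h6 <;> omega
  have hx2 : (3 : ℤ) ∣ x := h2.dvd_of_dvd_pow (show (3 : ℤ) ∣ x ^ 4 by omega)
  have hy2 : (3 : ℤ) ∣ y := h2.dvd_of_dvd_pow (show (3 : ℤ) ∣ y ^ 4 by omega)
  exact h2.not_isUnit (hc.isUnit_of_dvd' hx2 hy2)

theorem k_pos {k x y w : ℤ} (h2 : 2 < x ^ 4 + y ^ 4) (h : x ^ 4 + y ^ 4 = k * w ^ 2) : 0 < k ∧ w ≠ 0 := by
  have hw : w ≠ 0 := by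
    rintro rfl
    rw [h] at h2
    norm_num at h2
  refine ⟨?_, hw⟩
  by_contra hk
  have h3 : k * w ^ 2 ≤ 0 := mul_nonpos_of_nonpos_of_nonneg (not_lt.1 hk) (sq_nonneg w)
  omega

/-- **tripling** -/
theorem tri {k x y w : ℤ} (hk : Squarefree k) (hc : IsCoprime x y) (h : x ^ 4 + y ^ 4 = k * w ^ 2)
    (h2 : 2 < x ^ 4 + y ^ 4) :
    ∃ x' y' w' B : ℤ, IsCoprime x' y' ∧ x' ^ 4 + y' ^ 4 = k * w' ^ 2 ∧ 2 < x' ^ 4 + y' ^ 4 ∧ w' = w * B ∧ 1 < B ∧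
      IsCoprime B w := by
  obtain ⟨hk0, hw0⟩ := k_pos h2 h
  set N1 : ℤ := x ^ 8 - 6 * x ^ 4 * y ^ 4 - 3 * y ^ 8 with hN1
  set N2 : ℤ := 3 * x ^ 8 + 6 * x ^ 4 * y ^ 4 - y ^ 8 with hN2
  set A : ℤ := x ^ 16 + 28 * x ^ 12 * y ^ 4 + 6 * x ^ 8 * y ^ 8 + 28 * x ^ 4 * y ^ 12 + y ^ 16 with hA
  have hid : (x * N1) ^ 4 + (y * N2) ^ 4 = k * (w * A) ^ 2 := tri_id k x y w h
  -- the size of `A`
  have hx4 : 0 ≤ x ^ 4 := by positivity
  have hy4 : 0 ≤ y ^ 4 := by positivity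
  have hbig : 16 ≤ x ^ 4 ∨ 16 ≤ y ^ 4 := by
    by_contra hcon
    push Not at hcon
    have hsm : ∀ a : ℤ, a ^ 4 < 16 → a ^ 4 ≤ 1 := by
      intro a ha
      have h3 : |a| < 2 := by
        have h4 : |a| ^ 4 < 2 ^ 4 := by
          rw [← abs_pow, abs_of_nonneg (show 0 ≤ a ^ 4 by positivity)]
          norm_num
          exact ha
        exact lt_of_pow_lt_pow_left₀ 4 (by norm_num) h4
      have h5 : |a| ≤ 1 := by omega
      have h6 : |a| ^ 4 ≤ 1 ^ 4 := pow_le_pow_left₀ (abs_nonneg a) h5 4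
      rw [← abs_pow, abs_of_nonneg (show 0 ≤ a ^ 4 by positivity)] at h6
      simpa using h6
    have h3 := hsm x hcon.1
    have h4 := hsm y hcon.2
    omega
  have hA1 : 65536 ≤ A := by
    have e1 : A = (x ^ 4) ^ 4 + 28 * (x ^ 4) ^ 3 * y ^ 4 + 6 * (x ^ 4) ^ 2 * (y ^ 4) ^ 2 + 28 * x ^ 4 * (y ^ 4) ^ 3 +
        (y ^ 4) ^ 4 := by rw [hA]; ring
    have h3 : (x ^ 4) ^ 4 + (y ^ 4) ^ 4 ≤ A := by
      rw [e1]
      have p1 : 0 ≤ (x ^ 4) ^ 3 * y ^ 4 := by positivity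
      have p2 : 0 ≤ (x ^ 4) ^ 2 * (y ^ 4) ^ 2 := by positivity
      have p3 : 0 ≤ x ^ 4 * (y ^ 4) ^ 3 := by positivity
      nlinarith
    rcases hbig with h4 | h4
    · have h5 : (16 : ℤ) ^ 4 ≤ (x ^ 4) ^ 4 := pow_le_pow_left₀ (by norm_num) h4 4
      have h6 : 0 ≤ (y ^ 4) ^ 4 := by positivity
      norm_num at h5
      linarith
    · have h5 : (16 : ℤ) ^ 4 ≤ (y ^ 4) ^ 4 := pow_le_pow_left₀ (by norm_num) h4 4
      have h6 : 0 ≤ (x ^ 4) ^ 4 := by positivity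
      norm_num at h5
      linarith
  have hA0 : A ≠ 0 := by omega
  obtain ⟨g, x', y', w', hg, hX, hY, hW, hc', h'⟩ := reduce hk hid (mul_ne_zero hw0 hA0)
  -- `g` divides 64
  have hgx : IsCoprime g x := by
    have h3 : IsCoprime N2 x := by
      have h4 : IsCoprime (-(y ^ 8)) x := (hc.symm.pow_left (m := 8)).neg_left
      have h5 := IsCoprime.add_mul_right_left h4 (3 * x ^ 7 + 6 * x ^ 3 * y ^ 4)
      have e1 : -(y ^ 8) + (3 * x ^ 7 + 6 * x ^ 3 * y ^ 4) * x = N2 := by rw [hN2]; ring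
      rwa [e1] at h5
    have h6 : IsCoprime (y * N2) x := hc.symm.mul_left h3
    exact h6.of_isCoprime_of_dvd_left ⟨y', hY⟩
  have hgy : IsCoprime g y := by
    have h3 : IsCoprime N1 y := by
      have h4 : IsCoprime (x ^ 8) y := hc.pow_left
      have h5 := IsCoprime.add_mul_right_left h4 (-(6 * x ^ 4 * y ^ 3) - 3 * y ^ 7)
      have e1 : x ^ 8 + (-(6 * x ^ 4 * y ^ 3) - 3 * y ^ 7) * y = N1 := by rw [hN1]; ring
      rwa [e1] at h5
    have h6 : IsCoprime (x * N1) y := hc.mul_left h3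
    exact h6.of_isCoprime_of_dvd_left ⟨x', hX⟩
  have hg1 : g ∣ N1 := hgx.dvd_of_dvd_mul_left ⟨x', hX⟩
  have hg2 : g ∣ N2 := hgy.dvd_of_dvd_mul_left ⟨y', hY⟩
  have hg64 : g ∣ 64 := by
    have h3 : g ∣ 64 * x ^ 12 := by
      have h4 : g ∣ (19 * x ^ 4 - 3 * y ^ 4) * N1 + (15 * x ^ 4 + 9 * y ^ 4) * N2 :=
        dvd_add (hg1.mul_left _) (hg2.mul_left _)
      have e1 : (19 * x ^ 4 - 3 * y ^ 4) * N1 + (15 * x ^ 4 + 9 * y ^ 4) * N2 = 64 * x ^ 12 := by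
        rw [hN1, hN2]; ring
      rwa [e1] at h4
    exact (hgx.pow_right (n := 12)).dvd_of_dvd_mul_right h3
  have hgle : g ^ 2 ≤ 4096 := by
    have h3 : |g| ≤ 64 := by
      have := Int.le_of_dvd (by norm_num) ((abs_dvd g 64).2 hg64)
      exact this
    have h4 : |g| ^ 2 ≤ 64 ^ 2 := pow_le_pow_left₀ (abs_nonneg g) h3 2
    rw [sq_abs] at h4
    norm_num at h4
    exact h4
  have hgw : IsCoprime (g ^ 2) w := by
    have h3 : IsCoprime (2 ^ 6 : ℤ) w := (coprime_two hc h).pow_left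
    norm_num at h3
    exact (h3.of_isCoprime_of_dvd_left hg64).pow_left
  have hgA : g ^ 2 ∣ A := hgw.dvd_of_dvd_mul_left ⟨w', hW⟩
  obtain ⟨B, hB⟩ := hgA
  have hg2pos : 0 < g ^ 2 := by positivity
  have hB1 : 1 < B := by
    by_contra hcon
    have h3 : B ≤ 1 := not_lt.1 hcon
    have h4 : A ≤ g ^ 2 := by
      rw [hB]
      nlinarith
    omega
  have hw' : w' = w * B := by
    apply mul_left_cancel₀ hg2pos.ne'
    rw [← hW, hB]
    ring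
  have hAw : IsCoprime A w := by
    have h3 : IsCoprime (-(48 * y ^ 16)) w := by
      have h5 : IsCoprime (48 : ℤ) w := by
        have h6 : IsCoprime (2 ^ 4 * 3 : ℤ) w := ((coprime_two hc h).pow_left).mul_left (coprime_three hc h)
        norm_num at h6
        exact h6
      exact (h5.mul_left ((coprime_w hc h).pow_left (m := 16))).neg_left
    have h4 := IsCoprime.add_mul_right_left h3
      (k * w * (x ^ 12 + 27 * x ^ 8 * y ^ 4 - 21 * x ^ 4 * y ^ 8 + 49 * y ^ 12))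
    have e1 : -(48 * y ^ 16) + k * w * (x ^ 12 + 27 * x ^ 8 * y ^ 4 - 21 * x ^ 4 * y ^ 8 + 49 * y ^ 12) * w = A := by
      rw [hA]
      linear_combination (-(x ^ 12 + 27 * x ^ 8 * y ^ 4 - 21 * x ^ 4 * y ^ 8 + 49 * y ^ 12)) * h
    rwa [e1] at h4
  refine ⟨x', y', w', B, hc', h', ?_, hw', hB1, hAw.of_isCoprime_of_dvd_left ⟨g ^ 2, by rw [hB]; ring⟩⟩
  rw [h', hw']
  have h3 : 4 ≤ (w * B) ^ 2 := by
    have h5 : 1 ≤ w ^ 2 := by
      have : 0 < w ^ 2 := by positivity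
      omega
    have h6 : 4 ≤ B ^ 2 := by nlinarith
    rw [mul_pow]
    nlinarith
  nlinarith

end Quart
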